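import Mathlib

/-!
# Project NV (helper802), task NV5: elementary part (only Mathlib), by helper498

The norm of a short prime polynomial as a multiplier on sequences.
-/

set_option autoImplicit false

open Finset

namespace Pool.Agent.N498.NV

open ArithmeticFunction (vonMangoldt)

lemma psi6 (N : ℕ) : ∑ n ∈ Icc 1 N, vonMangoldt n ≤ 6 * N := by
  have h := Chebyshev.psi_le_const_mul_self (x := (N : ℝ)) (Nat.cast_nonneg N)
  have e : Chebyshev.psi (N : ℝ) = ∑ n ∈ Icc 1 N, vonMangoldt n := by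
    unfold Chebyshev.psi
    rw [Nat.floor_natCast]
    rfl
  rw [e] at h
  refine h.trans ?_
  apply mul_le_mul_of_nonneg_right _ (Nat.cast_nonneg N)
  have h2 : Real.log 4 ≤ 2 := by
    rw [show (4 : ℝ) = 2 ^ 2 by norm_num, Real.log_pow]
    have := Real.log_two_lt_d9
    norm_num
    linarith
  linarith

/-- one unit interval of the logarithm -/
lemma blk (D : Finset ℕ) (hD : ∀ n ∈ D, 1 ≤ n) (j : ℕ) :
    ∑ n ∈ D.filter (fun n : ℕ => ⌊Real.log (n : ℝ)⌋₊ = j), vonMangoldt n / n ≤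
      6 * Real.exp 1 := by
  have h1 : ∀ n ∈ D.filter (fun n : ℕ => ⌊Real.log (n : ℝ)⌋₊ = j),
      vonMangoldt n / n ≤ vonMangoldt n * Real.exp (-(j : ℝ)) := by
    intro n hn
    rw [Finset.mem_filter] at hn
    have hn1 := hD n hn.1
    have hn0 : (0 : ℝ) < n := by exact_mod_cast hn1
    have h2 : ((⌊Real.log (n : ℝ)⌋₊ : ℕ) : ℝ) ≤ Real.log (n : ℝ) :=
      Nat.floor_le (Real.log_natCast_nonneg n)
    rw [hn.2] at h2
    have h3 : Real.exp (j : ℝ) ≤ n := by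
      rw [← Real.le_log_iff_exp_le hn0]
      exact h2
    rw [div_eq_mul_inv, Real.exp_neg]
    exact mul_le_mul_of_nonneg_left (inv_anti₀ (Real.exp_pos _) h3)
      ArithmeticFunction.vonMangoldt_nonneg
  refine (Finset.sum_le_sum h1).trans ?_
  rw [← Finset.sum_mul]
  have h4 : ∑ n ∈ D.filter (fun n : ℕ => ⌊Real.log (n : ℝ)⌋₊ = j), vonMangoldt n ≤
      ∑ n ∈ Finset.Icc 1 ⌊Real.exp ((j : ℝ) + 1)⌋₊, vonMangoldt n := by
    apply Finset.sum_le_sum_of_subset_of_nonneg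
    · intro n hn
      rw [Finset.mem_filter] at hn
      have hn1 := hD n hn.1
      have hn0 : (0 : ℝ) < n := by exact_mod_cast hn1
      rw [Finset.mem_Icc]
      refine ⟨hn1, Nat.le_floor ?_⟩
      have h2 := Nat.lt_floor_add_one (Real.log (n : ℝ))
      rw [hn.2] at h2
      rw [← Real.log_le_iff_le_exp hn0]
      linarith
    · intro n _ _
      exact ArithmeticFunction.vonMangoldt_nonneg
  have h5 := psi6 ⌊Real.exp ((j : ℝ) + 1)⌋₊
  have h6 : (⌊Real.exp ((j : ℝ) + 1)⌋₊ : ℝ) ≤ Real.exp ((j : ℝ) + 1) :=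
    Nat.floor_le (Real.exp_pos _).le
  have h7 : ∑ n ∈ D.filter (fun n : ℕ => ⌊Real.log (n : ℝ)⌋₊ = j), vonMangoldt n ≤
      6 * Real.exp ((j : ℝ) + 1) := by linarith
  calc _ ≤ 6 * Real.exp ((j : ℝ) + 1) * Real.exp (-(j : ℝ)) :=
        mul_le_mul_of_nonneg_right h7 (Real.exp_pos _).le
    _ = 6 * Real.exp 1 := by
        rw [mul_assoc, ← Real.exp_add]
        congr 2
        ring

/-- sums over prime powers, by the unit intervals of the logarithm -/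
lemma sumblk (D : Finset ℕ) {X : ℝ} (hD : ∀ n ∈ D, 1 ≤ n ∧ (n : ℝ) ≤ X) (f g : ℕ → ℝ)
    (hg : ∀ j, 0 ≤ g j) (hf : ∀ n ∈ D, f n ≤ vonMangoldt n / n * g ⌊Real.log (n : ℝ)⌋₊) :
    ∑ n ∈ D, f n ≤ 6 * Real.exp 1 * ∑ j ∈ range (⌊Real.log X⌋₊ + 1), g j := by
  refine (Finset.sum_le_sum hf).trans ?_
  rw [← Finset.sum_fiberwise_of_maps_to (g := fun n : ℕ => ⌊Real.log (n : ℝ)⌋₊)
    (t := range (⌊Real.log X⌋₊ + 1)) (fun n hn => by
      rw [mem_range, Nat.lt_succ_iff]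
      apply Nat.floor_le_floor
      exact Real.log_le_log (by exact_mod_cast (hD n hn).1) (hD n hn).2), Finset.mul_sum]
  refine Finset.sum_le_sum fun j _ => ?_
  have h1 : ∑ n ∈ D.filter (fun n : ℕ => ⌊Real.log (n : ℝ)⌋₊ = j),
      vonMangoldt n / n * g ⌊Real.log (n : ℝ)⌋₊ =
      (∑ n ∈ D.filter (fun n : ℕ => ⌊Real.log (n : ℝ)⌋₊ = j), vonMangoldt n / n) * g j := by
    rw [Finset.sum_mul]
    refine Finset.sum_congr rfl fun n hn => ?_
    rw [(Finset.mem_filter.1 hn).2]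
  rw [h1]
  exact mul_le_mul_of_nonneg_right (blk D (fun n hn => (hD n hn).1) j) (hg j)

/-- the general inequality of Cauchy and Schwarz -/
lemma gl (D S Q : Finset ℕ) (hD : ∀ n ∈ D, 1 ≤ n) (x r : ℕ → ℂ) (u v : ℕ → ℝ)
    (hu : ∀ n ∈ D, 0 ≤ u n) (hv : ∀ n ∈ D, 0 ≤ v n) (hx : ∀ n ∈ D, ‖x n‖ ^ 2 ≤ u n * v n)
    {A : ℝ} (hA0 : 0 ≤ A)
    (hA : ∀ n ∈ D, ∀ m ∈ S, ∑ l ∈ D.filter (fun l => l ∣ n * m), u l ≤ A) :
    ∑ k ∈ Q, ‖∑ z ∈ (D ×ˢ S).filter (fun z => z.1 * z.2 = k), x z.1 * r z.2‖ ^ 2 ≤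
      A * (∑ n ∈ D, v n) * ∑ m ∈ S, ‖r m‖ ^ 2 := by
  have h1 : ∀ k ∈ Q, ‖∑ z ∈ (D ×ˢ S).filter (fun z => z.1 * z.2 = k), x z.1 * r z.2‖ ^ 2 ≤
      A * ∑ z ∈ (D ×ˢ S).filter (fun z => z.1 * z.2 = k), v z.1 * ‖r z.2‖ ^ 2 := by
    intro k _
    have hmemD : ∀ z ∈ (D ×ˢ S).filter (fun z => z.1 * z.2 = k), z.1 ∈ D := fun z hz =>
      (mem_product.1 (mem_filter.1 hz).1).1
    have h2 : ‖∑ z ∈ (D ×ˢ S).filter (fun z => z.1 * z.2 = k), x z.1 * r z.2‖ ≤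
        ∑ z ∈ (D ×ˢ S).filter (fun z => z.1 * z.2 = k),
          Real.sqrt (u z.1) * (Real.sqrt (v z.1) * ‖r z.2‖) := by
      refine (norm_sum_le _ _).trans (Finset.sum_le_sum fun z hz => ?_)
      rw [norm_mul, ← mul_assoc]
      refine mul_le_mul_of_nonneg_right ?_ (norm_nonneg _)
      rw [← Real.sqrt_mul (hu _ (hmemD z hz))]
      exact Real.le_sqrt_of_sq_le (hx _ (hmemD z hz))
    have h3 : ‖∑ z ∈ (D ×ˢ S).filter (fun z => z.1 * z.2 = k), x z.1 * r z.2‖ ^ 2 ≤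
        (∑ z ∈ (D ×ˢ S).filter (fun z => z.1 * z.2 = k), Real.sqrt (u z.1) ^ 2) *
        ∑ z ∈ (D ×ˢ S).filter (fun z => z.1 * z.2 = k), (Real.sqrt (v z.1) * ‖r z.2‖) ^ 2 :=
      (pow_le_pow_left₀ (norm_nonneg _) h2 2).trans (Finset.sum_mul_sq_le_sq_mul_sq _ _ _)
    have h4 : ∑ z ∈ (D ×ˢ S).filter (fun z => z.1 * z.2 = k), (Real.sqrt (v z.1) * ‖r z.2‖) ^ 2 =
        ∑ z ∈ (D ×ˢ S).filter (fun z => z.1 * z.2 = k), v z.1 * ‖r z.2‖ ^ 2 :=
      Finset.sum_congr rfl fun z hz => by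
        rw [mul_pow, Real.sq_sqrt (hv _ (hmemD z hz))]
    have h5 : ∑ z ∈ (D ×ˢ S).filter (fun z => z.1 * z.2 = k), Real.sqrt (u z.1) ^ 2 =
        ∑ z ∈ (D ×ˢ S).filter (fun z => z.1 * z.2 = k), u z.1 :=
      Finset.sum_congr rfl fun z hz => Real.sq_sqrt (hu _ (hmemD z hz))
    rw [h4, h5] at h3
    refine h3.trans (mul_le_mul_of_nonneg_right ?_ (Finset.sum_nonneg fun z hz =>
      mul_nonneg (hv _ (hmemD z hz)) (sq_nonneg _)))
    rcases ((D ×ˢ S).filter (fun z => z.1 * z.2 = k)).eq_empty_or_nonempty with he | ⟨z0, hz0⟩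
    · rw [he, Finset.sum_empty]; exact hA0
    · have hz1 := mem_filter.1 hz0
      have hz2 := mem_product.1 hz1.1
      refine le_trans ?_ (hA z0.1 hz2.1 z0.2 hz2.2)
      have h6 : ∑ z ∈ (D ×ˢ S).filter (fun z => z.1 * z.2 = k), u z.1 =
          ∑ l ∈ ((D ×ˢ S).filter (fun z => z.1 * z.2 = k)).image Prod.fst, u l := by
        rw [Finset.sum_image]
        intro z hz w hw hzw
        have e1 := (mem_filter.1 hz).2
        have e2 := (mem_filter.1 hw).2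
        have hpos : 0 < z.1 := hD _ (hmemD z hz)
        refine Prod.ext hzw ?_
        rw [← hzw, ← e1] at e2
        exact (Nat.eq_of_mul_eq_mul_left hpos e2).symm
      rw [h6]
      apply Finset.sum_le_sum_of_subset_of_nonneg
      · intro l hl
        obtain ⟨z, hz, rfl⟩ := mem_image.1 hl
        refine mem_filter.2 ⟨hmemD z hz, ?_⟩
        rw [hz1.2, ← (mem_filter.1 hz).2]
        exact dvd_mul_right _ _
      · intro l hl _
        exact hu l (mem_filter.1 hl).1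
  refine (Finset.sum_le_sum h1).trans ?_
  rw [← Finset.mul_sum, mul_assoc]
  refine mul_le_mul_of_nonneg_left ?_ hA0
  have h2 : ∑ k ∈ Q, ∑ z ∈ (D ×ˢ S).filter (fun z => z.1 * z.2 = k), v z.1 * ‖r z.2‖ ^ 2 =
      ∑ z ∈ D ×ˢ S, if z.1 * z.2 ∈ Q then v z.1 * ‖r z.2‖ ^ 2 else 0 := by
    simp only [Finset.sum_filter]
    rw [Finset.sum_comm]
    refine Finset.sum_congr rfl fun z _ => ?_
    rw [Finset.sum_ite_eq]
  rw [h2, Finset.sum_mul_sum, ← Finset.sum_product']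
  refine Finset.sum_le_sum fun z hz => ?_
  split_ifs
  · exact le_rfl
  · exact mul_nonneg (hv _ (mem_product.1 hz).1) (sq_nonneg _)

/-- the divisors -/
lemma divs (D S : Finset ℕ) {X N h : ℝ} (hh : 0 ≤ h) (hD : ∀ n ∈ D, 1 ≤ n ∧ (n : ℝ) ≤ X)
    (hS : ∀ m ∈ S, 1 ≤ m ∧ (m : ℝ) ≤ N) (c : ℕ → ℂ) (hc : ∀ n, ‖c n‖ ≤ h) :
    ∀ n ∈ D, ∀ m ∈ S, ∑ l ∈ D.filter (fun l => l ∣ n * m), vonMangoldt l * ‖c l‖ ≤
      h * (Real.log X + Real.log N) := by
  intro n hn m hm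
  have hn1 := hD n hn
  have hm1 := hS m hm
  have hnm : n * m ≠ 0 := mul_ne_zero (by omega) (by omega)
  have h1 : ∑ l ∈ D.filter (fun l => l ∣ n * m), vonMangoldt l * ‖c l‖ ≤
      ∑ l ∈ D.filter (fun l => l ∣ n * m), vonMangoldt l * h :=
    Finset.sum_le_sum fun l _ => mul_le_mul_of_nonneg_left (hc l)
      ArithmeticFunction.vonMangoldt_nonneg
  refine h1.trans ?_
  rw [← Finset.sum_mul, mul_comm]
  refine mul_le_mul_of_nonneg_left ?_ hh
  have h2 : ∑ l ∈ D.filter (fun l => l ∣ n * m), vonMangoldt l ≤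
      ∑ l ∈ (n * m).divisors, vonMangoldt l := by
    apply Finset.sum_le_sum_of_subset_of_nonneg
    · intro l hl
      exact Nat.mem_divisors.2 ⟨(mem_filter.1 hl).2, hnm⟩
    · intro l _ _
      exact ArithmeticFunction.vonMangoldt_nonneg
  rw [ArithmeticFunction.vonMangoldt_sum] at h2
  refine h2.trans ?_
  have hn0 : (0 : ℝ) < n := by exact_mod_cast hn1.1
  have hm0 : (0 : ℝ) < m := by exact_mod_cast hm1.1
  rw [Nat.cast_mul, Real.log_mul hn0.ne' hm0.ne']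
  exact add_le_add (Real.log_le_log hn0 hn1.2) (Real.log_le_log hm0 hm1.2)

/-- the telescoping sum -/
lemma tele {h : ℝ} (hh : 0 < h) (n : ℕ) :
    ∑ j ∈ range n, h / (1 + h * ((j : ℝ) + 1)) ≤ Real.log (1 + h * n) := by
  induction n with
  | zero => simp
  | succ n ih =>
    rw [Finset.sum_range_succ]
    have h1 : (0 : ℝ) < 1 + h * n := by positivity
    have h2 : (0 : ℝ) < 1 + h * ((n : ℝ) + 1) := by positivity
    have h3 := Real.log_le_sub_one_of_pos (div_pos h1 h2)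
    rw [Real.log_div h1.ne' h2.ne'] at h3
    have h4 : (1 + h * (n : ℝ)) / (1 + h * ((n : ℝ) + 1)) - 1 =
        -(h / (1 + h * ((n : ℝ) + 1))) := by
      field_simp
      ring
    rw [h4] at h3
    push_cast
    linarith

/-- prime powers which are not primes -/
lemma nonprime : ∃ C : ℝ, 0 ≤ C ∧ ∀ D : Finset ℕ, (∀ n ∈ D, ¬ n.Prime) →
    ∑ n ∈ D, vonMangoldt n / n ≤ C := by
  have hs := ArithmeticFunction.vonMangoldt.summable_residueClass_non_primes_div (q := 1) 0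
  have h0 : ∀ n : ℕ, 0 ≤ (if Nat.Prime n then 0 else
      ArithmeticFunction.vonMangoldt.residueClass (0 : ZMod 1) n) / (n : ℝ) := by
    intro n
    apply div_nonneg _ (Nat.cast_nonneg n)
    split_ifs
    · exact le_rfl
    · exact Set.indicator_nonneg (fun _ _ => ArithmeticFunction.vonMangoldt_nonneg) _
  refine ⟨_, tsum_nonneg h0, fun D hD => le_trans (le_of_eq ?_) (hs.sum_le_tsum D fun n _ => h0 n)⟩
  refine Finset.sum_congr rfl fun n hn => ?_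
  rw [if_neg (hD n hn)]
  congr 1
  have h1 : n ∈ {n : ℕ | (n : ZMod 1) = 0} := Subsingleton.elim _ _
  exact (Set.indicator_of_mem h1 (fun x => vonMangoldt x)).symm

/-- the weight of a prime -/
lemma gbound {h C0 L cc : ℝ} (hh : 0 < h) (h1 : h ≤ 1) (hL : 0 ≤ L) (hc0 : 0 ≤ cc) (hc : cc ≤ h)
    (hc' : L * cc ≤ C0) :
    L * cc ^ 2 ≤ (1 + 2 * C0 ^ 2) * (2 * (h / (1 + h * ((⌊L⌋₊ : ℝ) + 1)))) := by
  set t : ℝ := (⌊L⌋₊ : ℝ) + 1 with ht
  have hfl : (⌊L⌋₊ : ℝ) ≤ L := Nat.floor_le hL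
  have hLt : L < t := Nat.lt_floor_add_one L
  have ht1 : 1 ≤ t := by
    have : (0 : ℝ) ≤ (⌊L⌋₊ : ℝ) := Nat.cast_nonneg _
    linarith
  have ht0 : 0 < t := by linarith
  have hC : 0 ≤ C0 ^ 2 := sq_nonneg _
  have hden : 0 < 1 + h * t := by positivity
  have hcc : cc ^ 2 ≤ h ^ 2 := pow_le_pow_left₀ hc0 hc 2
  rcases le_or_gt (h * t) 1 with hcase | hcase
  · have h2 : h / 2 ≤ h / (1 + h * t) := div_le_div_of_nonneg_left hh.le hden (by linarith)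
    have h3 : L * cc ^ 2 ≤ t * h ^ 2 := mul_le_mul hLt.le hcc (sq_nonneg _) ht0.le
    have h4 : t * h ^ 2 ≤ h := by nlinarith
    have h5 : 0 ≤ h / (1 + h * t) := div_nonneg hh.le hden.le
    nlinarith [mul_nonneg hC h5]
  · have h2 : 1 / (2 * t) ≤ h / (1 + h * t) := by
      rw [div_le_div_iff₀ (by positivity) hden]
      linarith
    have hfl1 : 1 ≤ ⌊L⌋₊ := by
      rcases Nat.eq_zero_or_pos ⌊L⌋₊ with h0 | h0
      · exfalso
        rw [h0] at ht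
        rw [ht] at hcase
        norm_num at hcase
        linarith
      · exact h0
    have hfl2 : (1 : ℝ) ≤ (⌊L⌋₊ : ℝ) := by exact_mod_cast hfl1
    have h3 : t ≤ 2 * L := by linarith
    have h4 : t * (L * cc ^ 2) ≤ 2 * C0 ^ 2 := by
      have h5 : (L * cc) ^ 2 ≤ C0 ^ 2 := pow_le_pow_left₀ (mul_nonneg hL hc0) hc' 2
      have h6 : t * (L * cc ^ 2) ≤ 2 * L * (L * cc ^ 2) :=
        mul_le_mul_of_nonneg_right h3 (mul_nonneg hL (sq_nonneg _))
      nlinarith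
    have h5 : L * cc ^ 2 ≤ 2 * C0 ^ 2 / t := by
      rw [le_div_iff₀ ht0, mul_comm]
      exact h4
    have h6 : (1 + 2 * C0 ^ 2) * (2 * (1 / (2 * t))) = (1 + 2 * C0 ^ 2) / t := by
      field_simp
    have h7 : (1 + 2 * C0 ^ 2) * (2 * (1 / (2 * t))) ≤
        (1 + 2 * C0 ^ 2) * (2 * (h / (1 + h * t))) :=
      mul_le_mul_of_nonneg_left (by linarith) (by linarith)
    have h8 : 2 * C0 ^ 2 / t ≤ (1 + 2 * C0 ^ 2) / t :=
      div_le_div_of_nonneg_right (by linarith) ht0.le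
    linarith

/-- the primes -/
lemma prim {C0 h Y : ℝ} (hh : 0 < h) (h1 : h ≤ 1) (hY : 1 ≤ Y) (a c : ℕ → ℂ)
    (ha : ∀ n, ‖a n‖ ≤ vonMangoldt n) (hc : ∀ n : ℕ, ‖c n‖ ≤ h ∧ Real.log n * ‖c n‖ ≤ C0)
    (D : Finset ℕ) (hD : ∀ n ∈ D, 1 ≤ n ∧ (n : ℝ) ≤ Y) (hP : ∀ n ∈ D, n.Prime)
    (v : ℕ → ℝ) (hv : ∀ n ∈ D, v n ≤ vonMangoldt n * ‖c n‖ * (vonMangoldt n * ‖c n‖ / n)) :
    ∑ n ∈ D, v n ≤ 12 * Real.exp 1 * (1 + 2 * C0 ^ 2) *
      (1 + Real.log (1 + h * Real.log Y)) := by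
  have hlY : 0 ≤ Real.log Y := Real.log_nonneg hY
  have h2 := sumblk D hD v (fun j => (1 + 2 * C0 ^ 2) * (2 * (h / (1 + h * ((j : ℝ) + 1)))))
    (fun j => by positivity) (fun n hn => by
      refine (hv n hn).trans ?_
      have hΛ := ArithmeticFunction.vonMangoldt_apply_prime (hP n hn)
      have h3 := gbound hh h1 (Real.log_natCast_nonneg n) (norm_nonneg (c n)) (hc n).1 (hc n).2
      rw [hΛ]
      have h4 : Real.log n * ‖c n‖ * (Real.log n * ‖c n‖ / n) =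
          Real.log n / n * (Real.log n * ‖c n‖ ^ 2) := by ring
      rw [h4]
      exact mul_le_mul_of_nonneg_left h3
        (div_nonneg (Real.log_natCast_nonneg n) (Nat.cast_nonneg n)))
  refine h2.trans ?_
  have h3 : ∑ j ∈ range (⌊Real.log Y⌋₊ + 1),
      (1 + 2 * C0 ^ 2) * (2 * (h / (1 + h * ((j : ℝ) + 1)))) =
      (1 + 2 * C0 ^ 2) * (2 * ∑ j ∈ range (⌊Real.log Y⌋₊ + 1), h / (1 + h * ((j : ℝ) + 1))) := by
    rw [Finset.mul_sum, Finset.mul_sum]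
  rw [h3]
  have h4 := tele hh (⌊Real.log Y⌋₊ + 1)
  have h5 : Real.log (1 + h * ((⌊Real.log Y⌋₊ + 1 : ℕ) : ℝ)) ≤
      1 + Real.log (1 + h * Real.log Y) := by
    have h6 : 1 + h * ((⌊Real.log Y⌋₊ + 1 : ℕ) : ℝ) ≤ 2 * (1 + h * Real.log Y) := by
      have h7 : (⌊Real.log Y⌋₊ : ℝ) ≤ Real.log Y := Nat.floor_le hlY
      have h8 : h * (⌊Real.log Y⌋₊ : ℝ) ≤ h * Real.log Y := mul_le_mul_of_nonneg_left h7 hh.le
      push_cast
      have h9 : 0 ≤ h * Real.log Y := mul_nonneg hh.le hlY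
      nlinarith
    have h9 : 0 ≤ h * Real.log Y := mul_nonneg hh.le hlY
    have h10 := Real.log_le_log (by positivity) h6
    rw [Real.log_mul (by norm_num) (by positivity)] at h10
    have h11 := Real.log_two_lt_d9
    linarith
  have h6 : 0 ≤ 1 + 2 * C0 ^ 2 := by positivity
  have h7 : (1 + 2 * C0 ^ 2) * (2 * ∑ j ∈ range (⌊Real.log Y⌋₊ + 1),
      h / (1 + h * ((j : ℝ) + 1))) ≤
      (1 + 2 * C0 ^ 2) * (2 * (1 + Real.log (1 + h * Real.log Y))) :=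
    mul_le_mul_of_nonneg_left (by linarith) h6
  have h8 : 0 < 6 * Real.exp 1 := by positivity
  have h9 := mul_le_mul_of_nonneg_left h7 h8.le
  refine h9.trans (le_of_eq ?_)
  ring

/-- NV5 -/
theorem core (C0 : ℝ) (hC0 : 0 < C0) : ∃ C : ℝ, 0 < C ∧ ∀ h N Y : ℝ, 0 < h → h ≤ 1 → 1 ≤ N →
    1 ≤ Y → ∀ a c : ℕ → ℂ, (∀ n, ‖a n‖ ≤ vonMangoldt n) →
    (∀ n : ℕ, ‖c n‖ ≤ h ∧ Real.log n * ‖c n‖ ≤ C0) → ∀ S : Finset ℕ,
    (∀ k ∈ S, 1 ≤ k ∧ (k : ℝ) ≤ N) → ∀ (r : ℕ → ℂ) (Q : Finset ℕ),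
    ∑ k ∈ Q, ‖∑ z ∈ ((Finset.Icc 1 ⌊Y⌋₊) ×ˢ S).filter (fun z => z.1 * z.2 = k),
      (a z.1 * (Real.sqrt z.1 : ℂ)⁻¹ * c z.1) * r z.2‖ ^ 2 ≤
      C * (1 + Real.log (1 + h * Real.log Y) + (h * Real.log N) ^ 2 +
        h ^ 2 * (Real.log N + Real.log Y)) * ∑ k ∈ S, ‖r k‖ ^ 2 := by
  classical
  obtain ⟨C3, hC3, hnp⟩ := nonprime
  refine ⟨3 * (12 * Real.exp 1 + 12 * Real.exp 1 * (1 + 2 * C0 ^ 2) + C3), by positivity, ?_⟩
  intro h N Y hh h1 hN hY a c ha hc S hS r Q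
  set x : ℕ → ℂ := fun n => a n * (Real.sqrt n : ℂ)⁻¹ * c n with hxdef
  have hlN : 0 ≤ Real.log N := Real.log_nonneg hN
  have hlY : 0 ≤ Real.log Y := Real.log_nonneg hY
  have hx2 : ∀ n : ℕ, ‖x n‖ ^ 2 ≤
      vonMangoldt n * ‖c n‖ * (vonMangoldt n * ‖c n‖ / n) := by
    intro n
    have e1 : ‖x n‖ ^ 2 = ‖a n‖ ^ 2 * (‖c n‖ ^ 2 / n) := by
      rw [hxdef]
      simp only
      rw [norm_mul, norm_mul, norm_inv, Complex.norm_real, Real.norm_eq_abs,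
        abs_of_nonneg (Real.sqrt_nonneg _), mul_pow, mul_pow, inv_pow,
        Real.sq_sqrt (Nat.cast_nonneg n)]
      ring
    rw [e1]
    have e2 : vonMangoldt n * ‖c n‖ * (vonMangoldt n * ‖c n‖ / n) =
        vonMangoldt n ^ 2 * (‖c n‖ ^ 2 / n) := by ring
    rw [e2]
    exact mul_le_mul_of_nonneg_right (pow_le_pow_left₀ (norm_nonneg _) (ha n) 2) (by positivity)
  set E := Finset.Icc 1 ⌊Y⌋₊ with hE
  set D1 := E.filter (fun n : ℕ => (n : ℝ) ≤ N) with hD1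
  set D2 := (E.filter (fun n : ℕ => ¬ (n : ℝ) ≤ N)).filter (fun n => n.Prime) with hD2
  set D3 := (E.filter (fun n : ℕ => ¬ (n : ℝ) ≤ N)).filter (fun n => ¬ n.Prime) with hD3
  have hEm : ∀ n ∈ E, 1 ≤ n ∧ (n : ℝ) ≤ Y := by
    intro n hn
    rw [hE, mem_Icc] at hn
    exact ⟨hn.1, (Nat.cast_le.2 hn.2).trans (Nat.floor_le (by linarith))⟩
  have hD1m : ∀ n ∈ D1, 1 ≤ n ∧ (n : ℝ) ≤ N := fun n hn =>
    ⟨(hEm n (mem_filter.1 hn).1).1, (mem_filter.1 hn).2⟩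
  have hD2m : ∀ n ∈ D2, 1 ≤ n ∧ (n : ℝ) ≤ Y := fun n hn =>
    hEm n (mem_filter.1 (mem_filter.1 hn).1).1
  have hD3m : ∀ n ∈ D3, 1 ≤ n ∧ (n : ℝ) ≤ Y := fun n hn =>
    hEm n (mem_filter.1 (mem_filter.1 hn).1).1
  have hG : ∀ (D : Finset ℕ) (k : ℕ),
      ∑ z ∈ (D ×ˢ S).filter (fun z => z.1 * z.2 = k), x z.1 * r z.2 =
      ∑ n ∈ D, ∑ m ∈ S, if n * m = k then x n * r m else 0 := by
    intro D k
    rw [Finset.sum_filter, Finset.sum_product]
  have hsplit : ∀ k, ∑ z ∈ (E ×ˢ S).filter (fun z => z.1 * z.2 = k), x z.1 * r z.2 =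
      ∑ z ∈ (D1 ×ˢ S).filter (fun z => z.1 * z.2 = k), x z.1 * r z.2 +
      (∑ z ∈ (D2 ×ˢ S).filter (fun z => z.1 * z.2 = k), x z.1 * r z.2 +
        ∑ z ∈ (D3 ×ˢ S).filter (fun z => z.1 * z.2 = k), x z.1 * r z.2) := by
    intro k
    rw [hG, hG, hG, hG, hD1, hD2, hD3, Finset.sum_filter_add_sum_filter_not,
      Finset.sum_filter_add_sum_filter_not]
  have h3 : ∀ u v w : ℂ, ‖u + (v + w)‖ ^ 2 ≤ 3 * (‖u‖ ^ 2 + ‖v‖ ^ 2 + ‖w‖ ^ 2) := by
    intro u v w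
    have h4 : ‖u + (v + w)‖ ≤ ‖u‖ + (‖v‖ + ‖w‖) :=
      (norm_add_le _ _).trans (add_le_add_right (norm_add_le _ _) _)
    have h5 := pow_le_pow_left₀ (norm_nonneg _) h4 2
    nlinarith [sq_nonneg (‖u‖ - ‖v‖), sq_nonneg (‖u‖ - ‖w‖), sq_nonneg (‖v‖ - ‖w‖)]
  have hstart : ∑ k ∈ Q, ‖∑ z ∈ (E ×ˢ S).filter (fun z => z.1 * z.2 = k), x z.1 * r z.2‖ ^ 2 ≤
      3 * (∑ k ∈ Q, ‖∑ z ∈ (D1 ×ˢ S).filter (fun z => z.1 * z.2 = k), x z.1 * r z.2‖ ^ 2 +
        ∑ k ∈ Q, ‖∑ z ∈ (D2 ×ˢ S).filter (fun z => z.1 * z.2 = k), x z.1 * r z.2‖ ^ 2 +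
        ∑ k ∈ Q, ‖∑ z ∈ (D3 ×ˢ S).filter (fun z => z.1 * z.2 = k), x z.1 * r z.2‖ ^ 2) := by
    rw [← Finset.sum_add_distrib, ← Finset.sum_add_distrib, Finset.mul_sum]
    refine Finset.sum_le_sum fun k _ => ?_
    rw [hsplit k]
    exact h3 _ _ _
  set w : ℝ := ∑ k ∈ S, ‖r k‖ ^ 2 with hw
  have hw0 : 0 ≤ w := Finset.sum_nonneg fun _ _ => sq_nonneg _
  have hΛ0 : ∀ n : ℕ, 0 ≤ vonMangoldt n := fun n => ArithmeticFunction.vonMangoldt_nonneg
  have hu0 : ∀ n : ℕ, 0 ≤ vonMangoldt n * ‖c n‖ := fun n => mul_nonneg (hΛ0 n) (norm_nonneg _)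
  have hv0 : ∀ n : ℕ, 0 ≤ vonMangoldt n * ‖c n‖ / n := fun n =>
    div_nonneg (hu0 n) (Nat.cast_nonneg n)
  have hvh : ∀ n : ℕ, vonMangoldt n * ‖c n‖ / n ≤ h * (vonMangoldt n / n) := by
    intro n
    have h4 : vonMangoldt n * ‖c n‖ / n = ‖c n‖ * (vonMangoldt n / n) := by ring
    rw [h4]
    exact mul_le_mul_of_nonneg_right (hc n).1 (div_nonneg (hΛ0 n) (Nat.cast_nonneg n))
  -- the three parts
  have b1 : ∑ k ∈ Q, ‖∑ z ∈ (D1 ×ˢ S).filter (fun z => z.1 * z.2 = k), x z.1 * r z.2‖ ^ 2 ≤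
      h * (Real.log N + Real.log N) * (h * (6 * Real.exp 1 * (Real.log N + 1))) * w := by
    have h4 := gl D1 S Q (fun n hn => (hD1m n hn).1) x r (fun n => vonMangoldt n * ‖c n‖)
      (fun n => vonMangoldt n * ‖c n‖ / n) (fun n _ => hu0 n) (fun n _ => hv0 n)
      (fun n _ => hx2 n) (A := h * (Real.log N + Real.log N)) (by positivity)
      (divs D1 S hh.le hD1m hS c fun n => (hc n).1)
    refine h4.trans (mul_le_mul_of_nonneg_right (mul_le_mul_of_nonneg_left ?_ (by positivity)) hw0)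
    refine (Finset.sum_le_sum fun n _ => hvh n).trans ?_
    rw [← Finset.mul_sum]
    refine mul_le_mul_of_nonneg_left ?_ hh.le
    have h5 := sumblk D1 hD1m (fun n => vonMangoldt n / n) (fun _ => 1) (fun _ => zero_le_one)
      (fun n _ => by rw [mul_one])
    refine h5.trans (mul_le_mul_of_nonneg_left ?_ (by positivity))
    rw [Finset.sum_const, card_range, nsmul_eq_mul, mul_one]
    push_cast
    have := Nat.floor_le hlN
    linarith
  have b2 : ∑ k ∈ Q, ‖∑ z ∈ (D2 ×ˢ S).filter (fun z => z.1 * z.2 = k), x z.1 * r z.2‖ ^ 2 ≤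
      1 * (12 * Real.exp 1 * (1 + 2 * C0 ^ 2) * (1 + Real.log (1 + h * Real.log Y))) * w := by
    have h4 := gl D2 S Q (fun n hn => (hD2m n hn).1) x r (fun _ => 1)
      (fun n => ‖x n‖ ^ 2) (fun n _ => zero_le_one) (fun n _ => sq_nonneg _)
      (fun n _ => by rw [one_mul]) (A := 1) zero_le_one (by
        intro n hn m hm
        rw [Finset.sum_const, nsmul_eq_mul, mul_one]
        have h5 : (D2.filter (fun l => l ∣ n * m)).card ≤ 1 := by
          have key : ∀ l ∈ D2.filter (fun l => l ∣ n * m), l = n := by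
            intro l hl
            have hl1 := mem_filter.1 hl
            have hl2 := mem_filter.1 hl1.1
            have hn2 := mem_filter.1 hn
            rcases (Nat.Prime.dvd_mul hl2.2).1 hl1.2 with h6 | h6
            · exact (Nat.prime_dvd_prime_iff_eq hl2.2 hn2.2).1 h6
            · exfalso
              have h7 : l ≤ m := Nat.le_of_dvd (hS m hm).1 h6
              have h8 : (l : ℝ) ≤ m := by exact_mod_cast h7
              exact (mem_filter.1 hl2.1).2 (h8.trans (hS m hm).2)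
          rw [Finset.card_le_one]
          intro l hl l' hl'
          rw [key l hl, key l' hl']
        exact_mod_cast h5)
    refine h4.trans (mul_le_mul_of_nonneg_right (mul_le_mul_of_nonneg_left ?_ zero_le_one) hw0)
    exact prim hh h1 hY a c ha hc D2 hD2m (fun n hn => (mem_filter.1 hn).2) _ fun n _ => hx2 n
  have b3 : ∑ k ∈ Q, ‖∑ z ∈ (D3 ×ˢ S).filter (fun z => z.1 * z.2 = k), x z.1 * r z.2‖ ^ 2 ≤
      h * (Real.log Y + Real.log N) * (h * C3) * w := by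
    have h4 := gl D3 S Q (fun n hn => (hD3m n hn).1) x r (fun n => vonMangoldt n * ‖c n‖)
      (fun n => vonMangoldt n * ‖c n‖ / n) (fun n _ => hu0 n) (fun n _ => hv0 n)
      (fun n _ => hx2 n) (A := h * (Real.log Y + Real.log N)) (by positivity)
      (divs D3 S hh.le hD3m hS c fun n => (hc n).1)
    refine h4.trans (mul_le_mul_of_nonneg_right (mul_le_mul_of_nonneg_left ?_ (by positivity)) hw0)
    refine (Finset.sum_le_sum fun n _ => hvh n).trans ?_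
    rw [← Finset.mul_sum]
    exact mul_le_mul_of_nonneg_left (hnp D3 fun n hn => (mem_filter.1 hn).2) hh.le
  refine hstart.trans ?_
  set LY : ℝ := Real.log (1 + h * Real.log Y) with hLY
  have hLY0 : 0 ≤ LY := Real.log_nonneg (by have := mul_nonneg hh.le hlY; linarith)
  have hsq : 0 ≤ (h * Real.log N) ^ 2 := sq_nonneg _
  have hlin : 0 ≤ h ^ 2 * (Real.log N + Real.log Y) := by positivity
  have c1 : h * (Real.log N + Real.log N) * (h * (6 * Real.exp 1 * (Real.log N + 1))) ≤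
      12 * Real.exp 1 * (1 + LY + (h * Real.log N) ^ 2 + h ^ 2 * (Real.log N + Real.log Y)) := by
    have e1 : h * (Real.log N + Real.log N) * (h * (6 * Real.exp 1 * (Real.log N + 1))) =
        12 * Real.exp 1 * ((h * Real.log N) ^ 2 + h ^ 2 * Real.log N) := by ring
    rw [e1]
    refine mul_le_mul_of_nonneg_left ?_ (by positivity)
    have e2 : 0 ≤ h ^ 2 * Real.log Y := by positivity
    nlinarith
  have c2 : 1 * (12 * Real.exp 1 * (1 + 2 * C0 ^ 2) * (1 + LY)) ≤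
      12 * Real.exp 1 * (1 + 2 * C0 ^ 2) *
        (1 + LY + (h * Real.log N) ^ 2 + h ^ 2 * (Real.log N + Real.log Y)) := by
    rw [one_mul]
    exact mul_le_mul_of_nonneg_left (by linarith) (by positivity)
  have c3 : h * (Real.log Y + Real.log N) * (h * C3) ≤
      C3 * (1 + LY + (h * Real.log N) ^ 2 + h ^ 2 * (Real.log N + Real.log Y)) := by
    have e1 : h * (Real.log Y + Real.log N) * (h * C3) =
        C3 * (h ^ 2 * (Real.log N + Real.log Y)) := by ring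
    rw [e1]
    exact mul_le_mul_of_nonneg_left (by linarith) hC3
  have d1 := b1.trans (mul_le_mul_of_nonneg_right c1 hw0)
  have d2 := b2.trans (mul_le_mul_of_nonneg_right c2 hw0)
  have d3 := b3.trans (mul_le_mul_of_nonneg_right c3 hw0)
  have e : 3 * (12 * Real.exp 1 + 12 * Real.exp 1 * (1 + 2 * C0 ^ 2) + C3) *
      (1 + LY + (h * Real.log N) ^ 2 + h ^ 2 * (Real.log N + Real.log Y)) * w =
      3 * (12 * Real.exp 1 * (1 + LY + (h * Real.log N) ^ 2 +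
        h ^ 2 * (Real.log N + Real.log Y)) * w +
        12 * Real.exp 1 * (1 + 2 * C0 ^ 2) * (1 + LY + (h * Real.log N) ^ 2 +
        h ^ 2 * (Real.log N + Real.log Y)) * w +
        C3 * (1 + LY + (h * Real.log N) ^ 2 + h ^ 2 * (Real.log N + Real.log Y)) * w) := by ring
  rw [e]
  exact mul_le_mul_of_nonneg_left (add_le_add (add_le_add d1 d2) d3) (by norm_num)

end Pool.Agent.N498.NV
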